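import Pool.Agent.Helper106.VN.Asm
import Pool.Agent.Helper106.VN.A1
import Pool.Agent.Helper106.VN.A2
import Pool.Agent.Helper106.VN.A3
import Pool.Agent.Helper106.VN.TA4
import Pool.Agent.Helper106.VN.B1
import Pool.Agent.Helper106.VN.C1
import Pool.Agent.Helper106.VN.C2
import Pool.Agent.Helper106.VN.C3
import Pool.Agent.Helper106.VN.D1
import Pool.Agent.Helper106.VN.TaskD2

/-!
# Components of virtually nilpotent groups in the limit preorder are directed (MP_81bbc5_al, Q1: the answer is yes)

`G ⪯ H` (`Prec`) means that `H` is a limit of markings of `G` in the space of marked groups, written with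
isomorphisms of labelled balls. All groups in the component are virtually nilpotent. For a torsion-free nilpotent
normal subgroup `N` of finite index in `G` and a tuple `c` of elements of `G` let `K(G,N,c)` be the set of the words
which vanish on all tuples congruent to `c` modulo `N`. It does not change when `N` gets smaller nor when `G` is
replaced by a limit `H` of `G`; and if `c` consists of generators of `G` followed by sufficiently many `1`s then
`G ⪯ F/K(G,N,c)`. This gives a common upper bound of any two limits of `G`.
-/

namespace Pool.Agent.Results.MP_81bbc5_al.Directed

open Pool.Agent.Helper106.VN in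
/-- Every connected component of the graph of the relation `⪯` on finitely generated groups which contains a
virtually nilpotent group is directed: each finite subset has an upper bound in the component. -/
theorem result (C : Set FGGroup) (hC : IsComponent C)
    (hvn : ∃ G ∈ C, Group.IsVirtuallyNilpotent G.carrier) (F : Set FGGroup) (hF : F.Finite)
    (hFC : F ⊆ C) : ∃ U ∈ C, ∀ G ∈ F, G.Prec U := by
  have hcz := c_zero
  have hci := c_irr hcz
  have hcs := c_sub hcz
  have hce := c_epi hcs b_inf b_map
  have hdg := d_gen hci hcz d_isol
  have hai := a_indep
  have hed := e_diamond a_disc (a_fp hai) a_vnfp b_good hce hdg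
  exact main a_ball a_words a_up a_quot (a_fp hai) a_vnfp (a_trans hai) a_refl hed C hC hvn F hF hFC

end Pool.Agent.Results.MP_81bbc5_al.Directed
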